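import Pool.Agent.U731.SG.Poinc
import Pool.Agent.N510.LT.UForm

set_option autoImplicit false
set_option linter.unusedSectionVars false
set_option linter.style.haveILetI false

/-! Quadratic Poincaré complexes over the group ring `RG`, for any ring with involution `R`, whose
boundary operator `d` and duality map `(1 + T) ψ_0` are supported in one hermitian complex matrix with
spectrum in an interval of length at most `3 √2` (bound included), are sums of quadratic Poincaré
complexes induced from cyclic subgroups. For complexes concentrated in one degree this is a theorem on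
quadratic forms. Every quadratic form over `RG` has, after adding hyperbolic planes, an isometric form
of this kind for each larger bound. -/

namespace Pool.Agent.Results.MP_8a3537_gt.SymmetricSupportPoincare

open ComplexConjugate Matrix TH6.PF TH6.CX TH6.CR

/-- The values of `⟨xS, x⟩` on the unit vectors `x` of `ℓ²(G)^κ` with finite support `T` lie in an
interval `[a, a + s]`; for hermitian `S` this says that the spectrum of right multiplication by `S`
lies in it. -/
def SpanLE {G : Type} [Group G] {κ : Type} (S : Matrix κ κ (MonoidAlgebra ℂ G)) (s : ℝ) : Prop :=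
  ∃ a : ℝ, ∀ (T : Finset (κ × G)) (x : κ × G → ℂ),
    a * ∑ p ∈ T, ‖x p‖ ^ 2
      ≤ (∑ p ∈ T, ∑ q ∈ T, x p * (S p.1 q.1).coeff (p.2⁻¹ * q.2) * conj (x q)).re ∧
    (∑ p ∈ T, ∑ q ∈ T, x p * (S p.1 q.1).coeff (p.2⁻¹ * q.2) * conj (x q)).re
      ≤ (a + s) * ∑ p ∈ T, ‖x p‖ ^ 2

/-- `A` and `B` are supported, apart from identities on the diagonal, in the support of one hermitian
complex matrix `S` whose nonzero coefficients, except those of the identity on the diagonal, have
absolute value at least one, and whose spectrum lies in an interval of length `s`. -/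
def JointSpanLE {R : Type} [Ring R] {G : Type} [Group G] {κ : Type}
    (A B : Matrix κ κ (MonoidAlgebra R G)) (s : ℝ) : Prop :=
  ∃ S : Matrix κ κ (MonoidAlgebra ℂ G),
    (∀ i j g, (S j i).coeff g⁻¹ = conj ((S i j).coeff g)) ∧
    (∀ i j g, (S i j).coeff g ≠ 0 → (i = j ∧ g = 1) ∨ 1 ≤ ‖(S i j).coeff g‖) ∧
    (∀ i j g, (A i j).coeff g ≠ 0 → (i = j ∧ g = 1) ∨ (S i j).coeff g ≠ 0) ∧
    (∀ i j g, (B i j).coeff g ≠ 0 → (i = j ∧ g = 1) ∨ (S i j).coeff g ≠ 0) ∧ SpanLE S s

/-- `S` is a set of additive generators of `R` with `1 ∈ S` and `-S = S`. -/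
def Generates {R : Type} [Ring R] (S : Set R) : Prop :=
  (1 : R) ∈ S ∧ (∀ r ∈ S, -r ∈ S) ∧ AddSubgroup.closure S = ⊤

/-- The subgroup `C` is virtually cyclic, cyclic if `G` is torsion-free, and finite if `s < 4` (hence
trivial if `G` is torsion-free and `s < 4`). -/
def SmallSubgroup {G : Type} [Group G] (C : Subgroup G) (s : ℝ) : Prop :=
  (∃ z : C, (Subgroup.zpowers z).FiniteIndex) ∧
  ((∀ g : G, ∀ k : ℕ, 0 < k → g ^ k = 1 → g = 1) → IsCyclic C) ∧ (s < 4 → Finite C)

/-- The quadratic Poincaré complex `(d, ψ)` is, after a change of basis by the group elements `u i` and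
up to the boundary of `χ`, a block sum of quadratic Poincaré complexes over the group rings of the
subgroups `C a`; the block `a` has the basis elements `i` with `ρ i = a`. -/
def Splits {R : Type} [Ring R] [StarRing R] {G : Type} [Group G] (w : G →* ℤˣ)
    {ι : Type} [Fintype ι] [DecidableEq ι] (deg : ι → ℕ) (n : ℕ)
    (d : Matrix ι ι (MonoidAlgebra R G)) (ψ : ℕ → Matrix ι ι (MonoidAlgebra R G))
    (ρ : ι → ι) (u : ι → G) (C : ι → Subgroup G)
    (ψ' χ : ℕ → Matrix ι ι (MonoidAlgebra R G)) : Prop :=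
  InBlocks ρ C ((dmU R u).val * d * (dmU R u)⁻¹.val) ∧
  (∀ k, InBlocks ρ C (ψ' k)) ∧
  IsQuadratic w deg n ((dmU R u).val * d * (dmU R u)⁻¹.val) ψ' ∧
  (∃ t, IsCt (coneDeg deg n)
      (TH6.CR.cone w deg n ((dmU R u).val * d * (dmU R u)⁻¹.val) ψ') t ∧
    InBlocks (Sum.elim ρ ρ) C t) ∧
  (∀ k i j, χ k i j ≠ 0 → deg i + deg j + k = n + 1) ∧
  ∀ k, sadj w (dmU R u)⁻¹.val * ψ k * (dmU R u)⁻¹.val
    = ψ' k + TH6.CR.qbd w deg n ((dmU R u).val * d * (dmU R u)⁻¹.val) χ k

/-- 1. Let `R` be a ring with involution and `G` a group; suppose that `G` has no element of order two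
or that `2` is invertible in `R`. Let `(d, ψ)` be an `n`-dimensional quadratic Poincaré complex of
based free `RG`-modules, and suppose that `d` and the duality map `(1 + T) ψ_0` are supported in one
hermitian complex matrix of span `s ≤ 3 √2`. Then the complex is a sum of quadratic Poincaré complexes
induced from virtually cyclic subgroups, cyclic ones if `G` is torsion-free; if `s < 4`, the subgroups
are finite, and trivial if `G` is torsion-free.
2. Let `s > 3 √2` and let `S` be a set of additive generators of the nonzero ring `R` with `1 ∈ S` and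
`-S = S`. For every quadratic form `ψ` over `RG`, where `G` is any group, there are a number `m` and a
product of commutators `P` such that the form `φ = P (ψ ⊕ H^m) P*`, with hyperbolic planes `H`, has
coefficients in `S ∪ {0}` and the duality map of the `2k`-dimensional quadratic complex `(0, φ)`
concentrated in degree `k` is supported in a hermitian complex matrix of span at most `s`. -/
theorem result :
    (∀ (R : Type) [Ring R] [StarRing R] (G : Type) [Group G],
      ((∀ g : G, g * g = 1 → g = 1) ∨ ∃ a : R, 2 * a = 1) →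
      ∀ (w : G →* ℤˣ) (ι : Type) [Fintype ι] [DecidableEq ι] (deg : ι → ℕ) (n : ℕ)
        (d : Matrix ι ι (MonoidAlgebra R G)) (ψ : ℕ → Matrix ι ι (MonoidAlgebra R G)),
        IsQuadratic w deg n d ψ → (∃ t, IsCt (coneDeg deg n) (TH6.CR.cone w deg n d ψ) t) →
        ∀ s : ℝ, s ^ 2 ≤ 18 → JointSpanLE d (ψ 0 + TH6.CR.tw w deg (ψ 0)) s →
        ∃ (ρ : ι → ι) (u : ι → G) (C : ι → Subgroup G)
          (ψ' χ : ℕ → Matrix ι ι (MonoidAlgebra R G)),
          (∀ a, SmallSubgroup (C a) s) ∧ Splits w deg n d ψ ρ u C ψ' χ) ∧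
    (∀ (R : Type) [Ring R] [StarRing R] [Nontrivial R] (G : Type) [Group G] (w : G →* ℤˣ)
      (S : Set R), Generates S → ∀ s : ℝ, 0 < s → 18 < s ^ 2 →
      ∀ (n : ℕ) (ψ : Matrix (Fin n) (Fin n) (MonoidAlgebra R G)),
        ∃ (m : ℕ) (P : (Matrix (Fin n ⊕ (Fin m ⊕ Fin m)) (Fin n ⊕ (Fin m ⊕ Fin m))
            (MonoidAlgebra R G))ˣ) (φ : Matrix (Fin n ⊕ (Fin m ⊕ Fin m))
            (Fin n ⊕ (Fin m ⊕ Fin m)) (MonoidAlgebra R G)),
          P ∈ commutator (Matrix (Fin n ⊕ (Fin m ⊕ Fin m)) (Fin n ⊕ (Fin m ⊕ Fin m))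
            (MonoidAlgebra R G))ˣ ∧
          φ = P.val * fromBlocks ψ 0 0 (fromBlocks 0 1 0 0) * sadj w P.val ∧
          (∀ i j g, (φ i j).coeff g ≠ 0 → (φ i j).coeff g ∈ S) ∧
          ∀ k : ℕ, JointSpanLE 0 (φ + TH6.CR.tw w (fun _ => k) φ) s) := by
  classical
  refine ⟨?_, ?_⟩
  · intro R _ _ G _ h2 w ι _ _ deg n d ψ hψ hP s hs hsp
    obtain ⟨t, ht⟩ := hP
    obtain ⟨H, hH⟩ : ∃ H : Matrix ι ι (MonoidAlgebra R G) → Matrix ι ι (MonoidAlgebra R G),
        Halver w H := by
      rcases h2 with h2 | ⟨a, ha⟩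
      · exact ⟨_, half_halver w fun g hg => h2 g (by
          nth_rewrite 2 [hg]; exact mul_inv_cancel g)⟩
      · exact ⟨_, two_halver w a ha⟩
    obtain ⟨ρ, u, C, hC, h3, h4⟩ := Pool.Agent.U731.SG.jointSpan_struct s hs _ _ hsp
    obtain ⟨ψ', χ, k1, k2, k3, k4, k5, k6⟩ := TH6.CR.U731.q_struct hH hψ ρ u C h3 h4
    refine ⟨ρ, u, C, ψ', χ, fun a => ⟨(hC a).1, fun htf => ?_, (hC a).2⟩, k1, k2, k3, k4 t ht,
      k5, k6⟩
    obtain ⟨z, hz⟩ := (hC a).1
    exact TH6.LF.isCyclic_of_finiteIndex (fun x k hk hx => Subtype.ext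
      (htf x.1 k hk (by simpa using congrArg Subtype.val hx))) (Subgroup.zpowers z) inferInstance hz
  · intro R _ _ _ G _ w S hS s hs0 hs n ψ
    have hgen : Pool.Agent.N510.LT.Gens S := ⟨hS.1, hS.2.1, hS.2.2⟩
    obtain ⟨m, P, h1, h2, h3, h4⟩ := Pool.Agent.N510.LT.sform_reduction_fin w hgen ψ (s / 2)
      (by positivity) (by rw [div_pow]; linarith)
    refine ⟨m, P, P.val * TH6.LF.addHyp (Fin m) ψ * sadj w P.val, h1, rfl, h3, fun k => ?_⟩
    set φ := P.val * TH6.LF.addHyp (Fin m) ψ * sadj w P.val with hφ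
    have hsp := Pool.Agent.U731.SP.span_of_norm (symPat φ) (s / 2) (by positivity) h4
    rw [mul_div_cancel₀ s two_ne_zero] at hsp
    refine ⟨Pool.Agent.U731.SG.cxM (symPat φ), ?_, ?_, fun i j g h => absurd rfl h, ?_,
      Pool.Agent.U731.SG.spanK_of_int (symPat φ) _ hsp⟩
    · intro i j g
      rw [Pool.Agent.U731.SG.cxM_coeff, Pool.Agent.U731.SG.cxM_coeff, coeff_symPat, coeff_symPat,
        inv_inv, add_comm]
      simp
    · intro i j g hne
      right
      rw [Pool.Agent.U731.SG.cxM_coeff] at hne ⊢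
      have h5 : (symPat φ i j).coeff g ≠ 0 := by exact_mod_cast hne
      have h6 : (1 : ℤ) ≤ |(symPat φ i j).coeff g| := Int.one_le_abs h5
      rw [Complex.norm_intCast]
      exact_mod_cast h6
    · intro i j g hne
      right
      rw [Pool.Agent.U731.SG.cxM_coeff, coeff_symPat]
      have h7 : (φ i j).coeff g ≠ 0 ∨ (φ j i).coeff g⁻¹ ≠ 0 := by
        by_contra hcon
        rw [not_or, not_not, not_not] at hcon
        apply hne
        rw [Matrix.add_apply, TH6.CR.coeff_ad, TH6.CR.coeff_tw, hcon.1, hcon.2, star_zero,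
          smul_zero, smul_zero, add_zero]
      have h8 : ∀ r : R, 0 ≤ ind r := by
        intro r
        by_cases h0 : r = 0
        · rw [h0, ind_zero]
        · rw [ind_of_ne h0]; norm_num
      have h9 : ind ((φ i j).coeff g) + ind ((φ j i).coeff g⁻¹) ≠ 0 := by
        rcases h7 with h | h
        · have := ind_of_ne h
          have := h8 ((φ j i).coeff g⁻¹)
          omega
        · have := ind_of_ne h
          have := h8 ((φ i j).coeff g)
          omega
      exact_mod_cast h9

end Pool.Agent.Results.MP_8a3537_gt.SymmetricSupportPoincare
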