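import Pool.Agent.U863.TG.Two

/-!
# Countable Farrell–Jones groups embed in two-generator Farrell–Jones groups

`C` is any class of groups with the closure properties `ClosedE C`: it contains `ℤ`, it is closed
under subgroups, finite products, free products, overgroups of finite index and directed colimits, and
it satisfies the extension criterion. All this is known for the class of the groups whose wreath
products with finite groups satisfy the L-theoretic (or K-theoretic, or both) Farrell–Jones conjecture
with coefficients; for torsion-free groups it gives the isomorphism of the problem. Metabelian groups
are in this class too.

Theorem. Every sequence of countable groups in `C` embeds in one group `G` in `C` which is generated by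
two elements, and `G` is torsion-free if all groups of the sequence are. For example there is a
two-generator torsion-free Farrell–Jones group which contains a copy of every torsion-free hyperbolic
group, of every torsion-free CAT(0) group, and more generally of all finitely presented
torsion-free Farrell–Jones groups. The Higman–Neumann–Neumann embedding in a two-generator group uses
an HNN extension with large associated subgroups, for which no inheritance property is known; it is
the embedding in wreath products due to B. H. Neumann, Hanna Neumann and P. Hall which works.

The main step is a criterion (`finitary`) for kernels with finite support in unrestricted wreath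
products `Wr X A`, the groups of the pairs of any function `X → A` and any permutation of `X`. Suppose
that `A` is in `C`, that `F : Γ → Wr X A` is a homomorphism and that `N` is a normal subgroup of `Γ` on
which `F` is injective, with values in the elements which are trivial, function and permutation,
outside a finite set. If `Γ ⧸ N` is in `C`, then `Γ` is in `C`. (The functions in the image of `Γ` may
take infinitely many values; it is not known whether `Wr X A` is in `C`.)

Outline of the proof. First the free product of the sequence gives one countable group `H` in `C`. The
group `Ev H` consists of the pairs of a function `ℤ → H` which is `1` near `-∞` and constant near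
`+∞` and a translation of `ℤ`; the limit at `+∞` and the translation give a homomorphism to `H × ℤ`
whose kernel consists of elements of finite support, so `Ev H` is in `C` by the criterion, and `H`
embeds in `Ev H` by commutators of the step functions with the translation. Next take a function `φ`
on `ℤ` with values in `Ev H` which is `1` outside the powers of `2` and takes the value of the
translation at `1` and all the step functions at the other powers of `2`, and the group generated by
`φ` and the translation of `ℤ`. Since the powers of `2` are sparse, the commutators of two different
translates of `φ` have finite support: some of them give the elements of `H`, and modulo the elements of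
finite support the group is metabelian. By the criterion it is in `C`.
-/

set_option autoImplicit false

namespace Pool.Agent.Results.MP_8a3537_gt.TwoGeneratorGroups

open Pool.Agent.Y110.FJ Pool.Agent.U863.TG

theorem result (C : ∀ (G : Type) [Group G], Prop) (hC : ClosedE C)
    (hM : ∀ (G : Type) [Group G], derivedSeries G 2 = ⊥ → C G)
    (H : ℕ → Type) [∀ i, Group (H i)] (hH : ∀ i, Countable (H i) ∧ C (H i)) :
    ∃ (G : Type) (_ : Group G) (a b : G), C G ∧ Subgroup.closure {a, b} = ⊤ ∧
      (∀ i, ∃ j : H i →* G, Function.Injective j) ∧
      ((∀ (i : ℕ) (h : H i), IsOfFinOrder h → h = 1) → ∀ g : G, IsOfFinOrder g → g = 1) := by
  obtain ⟨G, hG, a, b, h1, h2, h3, h4⟩ := embed_family hC hM H (fun i => (hH i).1) (fun i => (hH i).2)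
  refine ⟨G, hG, a, b, h1, h2, h3, fun h g hg => ?_⟩
  obtain ⟨n, hn, hgn⟩ := isOfFinOrder_iff_pow_eq_one.1 hg
  exact h4 (fun i x m hm hx => h i x (isOfFinOrder_iff_pow_eq_one.2 ⟨m, hm, hx⟩)) g n hn hgn

end Pool.Agent.Results.MP_8a3537_gt.TwoGeneratorGroups
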