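import Pool.Agent.U722.UG.Poly

/-!
# Unitary groups of Witt index one over rings with a degree function

`C` is any class of groups with the closure properties `ClosedE C` which contains the solvable groups. All this is
published for the class of the groups whose wreath products with finite groups satisfy the K- and L-theoretic
Farrell-Jones conjecture with coefficients in additive categories (with involution): see Bartels, Farrell and Lück for
the inheritance properties and Wegner for the solvable groups; the groups `GL_n(ℚ)` are in it by Rüping. These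
groups satisfy Q1 and Q2.

Let `R` be a commutative ring with an involution `τ` and let `A` be a hermitian matrix over `R` (`τ(A i j) = A j i`), with
the hermitian form `h_A(w, w') = ∑ A i j τ(w_i) w'_j`. `U_A(R)` is the unitary group of the form
`τ(v_0) v'_1 + τ(v_1) v'_0 + h_A(w, w')`, the orthogonal sum of a hyperbolic plane and of `h_A`. If `h_A` is anisotropic
these are the hermitian forms of Witt index one. Examples are the groups `U_{n,1}` (`h_A` definite), such as the Picard
modular groups `U_{2,1}(ℤ[i])` and their analogues over `ℤ[i][x_1, ..., x_r]`, which act on complex hyperbolic spaces.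

It is open which groups of matrices are in the class. Known are, by Rüping, the groups `GL_n(ℚ)` (so all groups of
matrices over algebraic number fields) and `GL_n(F(t))`, `F` a finite field. For groups of matrices over fields of
positive transcendence degree over `ℚ`, or of degree at least two over a finite field, nothing general is known.

(1) *Reduction modulo an ideal.* Let `R` be a commutative domain with an involution `τ` and a degree function `δ`
which is invariant under `τ` and such that each degree is the degree of an element which is fixed by `τ`, let `h_A` be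
hermitian with entries of degree `0` and anisotropic with respect to `δ` (`δ(h_A(w, w)) = 2 max δ(w_i)` for `w ≠ 0`) and
let `φ : R → S` be a homomorphism such that for each `n` a power of the kernel of `φ` contains no element `r ≠ 0` of
degree at most `n`. Then a subgroup `Γ` of `U_A(R)` is in `C` if its image in `GL(S)` is.

(2) *Domains with one place at infinity.* Let `k` be a field such that all `GL_n(k)` are in `C`, let `R` be a
finitely generated domain over `k` with `τ`, `δ` and `A` as in (1), such that the elements of degree at most `n` are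
contained in a subspace of finite dimension, for all `n`. Then `U_A(R)` is in `C`.

Outline of the proof. The degree function gives a discrete valuation of the field `F` of fractions of `R`, which has
a uniformizer fixed by the involution, and `h_A` is anisotropic over the residue field. The unitary group over `F` acts on
a tree with two types of vertices, which in general are not equivalent under any automorphism of the group: the images of
the lattice `L_0` of the integral vectors and those of the lattice `L_1` of the vectors with `π v_0`, `v_1`, `w` integral.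
By the Iwasawa decomposition each vertex has a representative in the stabilizer `B` of an isotropic line; this gives it a
parent and a level. The decompositions of the stabilizers of `L_0` and `L_1` by the value of one matrix entry show that
the neighbours of a vertex are its parent and its children, and the unitary transvections show that any two vertices
have a common ancestor; so the graph is a tree. The elements of `Γ` which fix a given vertex have entries
of bounded degree, so the congruence subgroup modulo a power of the kernel of `φ` acts without fixed point on the orbit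
of the vertex, and the quotients of `Γ` by the congruence subgroups are nilpotent extensions of the image of
`Γ` in `GL(S)`, hence in `C`. Now the theorem of the starting library on groups which act on trees and have, for each
vertex, a homomorphism to a group in `C` which is injective on the stabilizer of the vertex applies.
-/

set_option autoImplicit false

namespace Pool.Agent.Results.MP_8a3537_gt.UnitaryDegree

open Matrix
open Pool.Agent.Y110.FJ (ClosedE)

/-- the sesquilinear form `h_A(w, w') = ∑ A i j τ(w_i) w'_j` -/
def form {R : Type} [CommRing R] {m : ℕ} (τ : R →+* R) (A : Matrix (Fin m) (Fin m) R)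
    (w w' : Fin m → R) : R :=
  ∑ i, ∑ j, A i j * τ (w i) * w' j

/-- the form `τ(v_0) v'_1 + τ(v_1) v'_0 + h_A(w, w')` on `R ^ (2 + m)` -/
def hyp {R : Type} [CommRing R] {m : ℕ} (τ : R →+* R) (A : Matrix (Fin m) (Fin m) R)
    (v v' : Fin 2 ⊕ Fin m → R) : R :=
  τ (v (Sum.inl 0)) * v' (Sum.inl 1) + τ (v (Sum.inl 1)) * v' (Sum.inl 0) +
    form τ A (fun i => v (Sum.inr i)) (fun i => v' (Sum.inr i))

/-- the invertible matrices of degree `2 + m` -/
def GLm (m : ℕ) (R : Type) [CommRing R] : Type := GL (Fin 2 ⊕ Fin m) R

instance (m : ℕ) (R : Type) [CommRing R] : Group (GLm m R) :=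
  @Units.instGroup (Matrix (Fin 2 ⊕ Fin m) (Fin 2 ⊕ Fin m) R) _

/-- the matrix -/
def GLm.mat {m : ℕ} {R : Type} [CommRing R] (g : GLm m R) :
    Matrix (Fin 2 ⊕ Fin m) (Fin 2 ⊕ Fin m) R := Units.val (α := Matrix (Fin 2 ⊕ Fin m) _ R) g

/-- a homomorphism of rings is applied to the entries -/
def GLm.map {m : ℕ} {R S : Type} [CommRing R] [CommRing S] (φ : R →+* S) : GLm m R →* GLm m S :=
  GeneralLinearGroup.map φ

/-- the unitary group of the form `τ(v_0) v'_1 + τ(v_1) v'_0 + h_A(w, w')` -/
def UG {R : Type} [CommRing R] {m : ℕ} (τ : R →+* R) (A : Matrix (Fin m) (Fin m) R) :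
    Subgroup (GLm m R) where
  carrier := {g | ∀ v v', hyp τ A (g.mat *ᵥ v) (g.mat *ᵥ v') = hyp τ A v v'}
  one_mem' := fun v v' => by
    change hyp τ A ((1 : Matrix (Fin 2 ⊕ Fin m) (Fin 2 ⊕ Fin m) R) *ᵥ v)
      ((1 : Matrix (Fin 2 ⊕ Fin m) (Fin 2 ⊕ Fin m) R) *ᵥ v') = _
    rw [Matrix.one_mulVec, Matrix.one_mulVec]
  mul_mem' := by
    intro g h hg hh v v'
    change hyp τ A ((g.mat * h.mat) *ᵥ v) ((g.mat * h.mat) *ᵥ v') = _
    rw [← Matrix.mulVec_mulVec, ← Matrix.mulVec_mulVec, hg, hh]
  inv_mem' := by
    intro g hg v v'
    have h1 := hg (g⁻¹.mat *ᵥ v) (g⁻¹.mat *ᵥ v')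
    have h2 : g.mat * g⁻¹.mat = 1 := Units.mul_inv (α := Matrix (Fin 2 ⊕ Fin m) _ R) g
    rw [Matrix.mulVec_mulVec, Matrix.mulVec_mulVec, h2, Matrix.one_mulVec, Matrix.one_mulVec] at h1
    exact h1.symm

/-- the unitary group `U_A(R)` of the form `τ(v_0) v'_1 + τ(v_1) v'_0 + h_A(w, w')`, as a group -/
def U {R : Type} [CommRing R] {m : ℕ} (τ : R →+* R) (A : Matrix (Fin m) (Fin m) R) : Type :=
  ↥(UG τ A)

instance {R : Type} [CommRing R] {m : ℕ} (τ : R →+* R) (A : Matrix (Fin m) (Fin m) R) :
    Group (U τ A) :=
  (UG τ A).toGroup

/-- `δ` is a degree function on `R`: the degree of a product of nonzero elements is the sum of their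
degrees, and the degree of a nonzero sum of nonzero elements is at most the maximum of their degrees. -/
structure IsDegree {R : Type} [CommRing R] (δ : R → ℕ) : Prop where
  mul : ∀ a b, a ≠ 0 → b ≠ 0 → δ (a * b) = δ a + δ b
  add : ∀ a b, a ≠ 0 → b ≠ 0 → a + b ≠ 0 → δ (a + b) ≤ max (δ a) (δ b)

/-- `τ` is an involution which preserves `δ`, each degree is the degree of a fixed element of `τ`, `h_A` is hermitian,
its entries have degree `0`, and it is anisotropic with respect to `δ`: if `w ≠ 0` then `h_A(w, w) ≠ 0` has
degree `2 max δ(w_i)`. -/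
structure DegreeHermitian {R : Type} [CommRing R] {m : ℕ} (δ : R → ℕ) (τ : R →+* R)
    (A : Matrix (Fin m) (Fin m) R) : Prop where
  inv : ∀ r, τ (τ r) = r
  deg : ∀ r, δ (τ r) = δ r
  fix : ∀ r, r ≠ 0 → ∃ s, s ≠ 0 ∧ τ s = s ∧ δ s = δ r
  herm : ∀ i j, τ (A i j) = A j i
  int : ∀ i j, A i j ≠ 0 → δ (A i j) = 0
  anis : ∀ w : Fin m → R, w ≠ 0 → ∃ i, w i ≠ 0 ∧ form τ A w w ≠ 0 ∧
    δ (form τ A w w) = 2 * δ (w i) ∧ ∀ j, w j ≠ 0 → δ (w j) ≤ δ (w i)

/-- (1) Reduction modulo an ideal. -/
def Reduction (C : ∀ (G : Type) [Group G], Prop) : Prop :=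
  ∀ (R S : Type) [CommRing R] [IsDomain R] [CommRing S] (δ : R → ℕ) (τ : R →+* R), IsDegree δ →
    ∀ (m : ℕ) (A : Matrix (Fin m) (Fin m) R), DegreeHermitian δ τ A →
    ∀ φ : R →+* S, (∀ n : ℕ, ∃ k : ℕ, ∀ r ∈ (RingHom.ker φ) ^ k, r ≠ 0 → n < δ r) →
    ∀ Γ : Subgroup (GLm m R), Γ ≤ UG τ A → C ↥(Γ.map (GLm.map φ)) → C ↥Γ

/-- (2) Finitely generated domains over `k` with a degree function. -/
def AffineDomains (C : ∀ (G : Type) [Group G], Prop) : Prop :=
  ∀ (k : Type) [Field k], (∀ n : ℕ, C (GL (Fin n) k)) →
    ∀ (R : Type) [CommRing R] [IsDomain R] [Algebra k R] [Algebra.FiniteType k R] (δ : R → ℕ)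
      (τ : R →+* R), IsDegree δ →
      (∀ n : ℕ, ∃ W : Submodule k R, Module.Finite k W ∧ ∀ r, r ≠ 0 → δ r ≤ n → r ∈ W) →
      ∀ (m : ℕ) (A : Matrix (Fin m) (Fin m) R), DegreeHermitian δ τ A → C (U τ A)

/-- Let `C` be a class of groups with the closure properties `ClosedE C` which contains the solvable
groups. Then (1) and (2) above hold. -/
theorem result (C : ∀ (G : Type) [Group G], Prop) (hC : ClosedE C)
    (hS : ∀ (G : Type) [Group G], Group.IsSolvable G → C G) :
    Reduction C ∧ AffineDomains C :=
  ⟨fun R S _ _ _ δ τ hδ m A hA φ hφ Γ hΓA hΓ =>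
      U722.UG.main_dom hC hS ⟨hδ.mul, hδ.add⟩
        ⟨hA.inv, hA.deg, hA.fix, hA.herm, hA.int, hA.anis⟩ φ hφ Γ hΓA hΓ,
    fun k _ hk R _ _ _ _ δ τ hδ hfin m A hA => U722.UG.fin_type hC hS hk ⟨hδ.mul, hδ.add⟩ hfin
      ⟨hA.inv, hA.deg, hA.fix, hA.herm, hA.int, hA.anis⟩⟩

end Pool.Agent.Results.MP_8a3537_gt.UnitaryDegree
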