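import Pool.Agent.U731.WH.Fo

/-!
# Discriminants of forms over group rings for groups built by wreath products and amalgams

Let `Built base` be the smallest class of groups which contains the groups in `base` and is closed
under the following constructions: (a) groups in which every element `g ≠ 1` is detected by a
homomorphism to a group of the class (subgroups, arbitrary cartesian products, residual closure);
(b) groups all of whose finitely generated subgroups are in the class; (c) restricted permutational
wreath products (and their subgroups), for actions with isolated stabilisers, for example the regular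
one; (d) amalgamated products `P` of arbitrary families which have a homomorphism to a group of the
class that is injective on the factors and maps the amalgamated subgroup to an isolated subgroup, for
example free products, or products of a group with itself along an isolated subgroup.

The groups in `base` are: (i) the torsion-free groups in which the centralisers of the elements `≠ 1`
are free abelian; (ii) the groups of piecewise linear homeomorphisms of the line with compact support;
(iii) the linear groups over fields, of any dimension and any characteristic, without unipotent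
elements `≠ 1`, in which `l`-th roots are unique for all `l`.

Let `Γ` be in the class, and let `h` be a nonsingular hermitian or skew-hermitian matrix over `ℤΓ`, with
image `h₁` over `ℤ`; if it is even, it represents an element of `L^h(ℤΓ)`. If the assembly map is onto
and the Whitehead group of `Γ` vanishes, then `h` is stably isometric to a form which comes from the
assembly map, and its discriminant in the Whitehead group is trivial. We prove that the discriminant
is invisible for the known invariants: the determinant of `ρ(h)` is the `d`-th power of the determinant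
of `h₁`, for every representation `ρ` of `Γ` of dimension `d` over a field; so for unitary `ρ` the
signatures of `ρ(h)` and of `d` copies of `h₁` are congruent modulo four; and the Dennis trace of `h` in
`HH₁(ℤΓ)` is a torsion element which is divisible by all positive integers.
-/

set_option autoImplicit false

namespace Pool.Agent.Results.MP_8a3537_gt.WreathAmalgamForms

open Pool.Agent.U731.WH Pool.Agent.R791 Monoid Matrix

universe v w

/-- The smallest class of groups which contains the groups in `base` and is closed under the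
constructions (a) `residual`, (b) `locally`, (c) `wreath`, (d) `amalgam`. -/
inductive Built (base : ∀ (Γ : Type) [Group Γ], Prop) : ∀ (Γ : Type) [Group Γ], Prop
  | of_base (Γ : Type) [Group Γ] (h : base Γ) : Built base Γ
  /-- every `g ≠ 1` is detected by a homomorphism to a group of the class -/
  | residual (Γ : Type) [Group Γ] (ι : Type) (Q : ι → Type) [∀ i, Group (Q i)]
      (π : ∀ i, Γ →* Q i) (hπ : ∀ g : Γ, g ≠ 1 → ∃ i, π i g ≠ 1) (hQ : ∀ i, Built base (Q i)) :
      Built base Γ
  /-- the finitely generated subgroups are in the class -/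
  | locally (Γ : Type) [Group Γ] (h : ∀ H : Subgroup Γ, H.FG → Built base H) : Built base Γ
  /-- subgroups of restricted permutational wreath products: `B` acts on `X`, the stabilisers are
  isolated, and `γ ↦ (h γ, π γ)` is an injective homomorphism to the wreath product of `G` and `B`
  along `X`, all functions `h γ : X → G` having finite support -/
  | wreath (Γ G X B : Type) [Group Γ] [Group G] [Group B] [MulAction B X]
      (hiso : ∀ (b : B) (x : X) (l : ℕ), l ≠ 0 → b ^ l • x = x → b • x = x)
      (π : Γ →* B) (h : Γ → X → G)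
      (hmul : ∀ (g g' : Γ) (x : X), h (g * g') x = h g x * h g' ((π g)⁻¹ • x))
      (hinj : ∀ g : Γ, π g = 1 → (∀ x, h g x = 1) → g = 1)
      (hfin : ∀ g : Γ, {x | h g x ≠ 1}.Finite)
      (hG : Built base G) (hB : Built base B) : Built base Γ
  /-- amalgamated products of the groups `G i` along the injective homomorphisms `φ i : H → G i`,
  with a homomorphism `ψ` to a group `Q` of the class which is injective on the factors and maps `H`
  to an isolated subgroup of `Q` -/
  | amalgam (ι : Type) [Nonempty ι] (G : ι → Type) [∀ i, Group (G i)] (H : Type) [Group H]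
      (φ : ∀ i, H →* G i) (hφ : ∀ i, Function.Injective (φ i)) (Q : Type) [Group Q]
      (ψ : PushoutI φ →* Q) (hψ : ∀ i, Function.Injective (ψ.comp (PushoutI.of (φ := φ) i)))
      (hiso : ∀ (q : Q) (l : ℕ), l ≠ 0 → (∃ h : H, ψ (PushoutI.base φ h) = q ^ l) →
        ∃ h : H, ψ (PushoutI.base φ h) = q)
      (hQ : Built base Q) : Built base (PushoutI φ)

/-- the only element of finite order is the identity -/
def TorsionFree (Γ : Type) [Group Γ] : Prop := ∀ g : Γ, ∀ m : ℕ, m ≠ 0 → g ^ m = 1 → g = 1

/-- piecewise linear with finitely many pieces, with compact support -/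
def PiecewiseLinear (f : ℝ ≃o ℝ) : Prop :=
  (∃ s : Finset ℝ, ∀ x y : ℝ, x < y → (∀ t ∈ s, t ≤ x ∨ y ≤ t) →
    ∃ a b : ℝ, ∀ z, x ≤ z → z ≤ y → f z = a * z + b) ∧
  ∃ r : ℝ, ∀ x : ℝ, r ≤ |x| → f x = x

/-- (i) torsion-free groups with free abelian (that is, embeddable in a free abelian group)
centralisers of the elements `≠ 1`, (ii) groups of piecewise linear homeomorphisms, (iii) linear groups
with unique roots and without unipotent elements `≠ 1` -/
def Base (Γ : Type) [Group Γ] : Prop :=
  (TorsionFree Γ ∧ ∀ c : Γ, c ≠ 1 → ∃ (ι : Type) (e : Subgroup.centralizer ({c} : Set Γ) →*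
      Multiplicative (ι →₀ ℤ)), Function.Injective e) ∨
  (∃ ρ : Γ →* (ℝ ≃o ℝ), Function.Injective ρ ∧ ∀ x, PiecewiseLinear (ρ x)) ∨
  ((∀ l : ℕ, l ≠ 0 → ∀ x y : Γ, x ^ l = y ^ l → x = y) ∧
    ∃ (K : Type) (_ : Field K) (N : ℕ) (ρ : Γ →* GL (Fin N) K),
      ∀ g : Γ, g ≠ 1 → ¬ IsNilpotent ((ρ g).val - 1))

/-- the property passes to the class -/
theorem pp_of_built {T : Tgt} (hT : T ℤ) {base : ∀ (Γ : Type) [Group Γ], Prop}
    (hbase : ∀ (Γ : Type) [Group Γ], base Γ → PP T Γ) (Γ : Type) [inst : Group Γ]
    (h : Built base Γ) : PP T Γ := by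
  induction h with
  | of_base Γ h => exact hbase Γ h
  | residual Γ ι Q π hπ _ ih =>
    apply PP.residual
    intro g hg
    obtain ⟨i, hi⟩ := hπ g hg
    exact ⟨Q i, inferInstance, π i, ih i, hi⟩
  | locally Γ _ ih => exact PP.local ih
  | wreath Γ G X B hiso π h hmul hinj hfin _ _ ihG ihB =>
    let φ : Γ →* PW G X B :=
      { toFun := fun g => ⟨h g, π g⟩
        map_one' := by
          have h1 : ∀ x, h 1 x = 1 := by
            intro x
            have h2 := hmul 1 1 x
            rw [one_mul, map_one, inv_one, one_smul] at h2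
            exact mul_eq_left.1 h2.symm
          apply PW.ext
          · funext x
            exact h1 x
          · exact map_one π
        map_mul' := fun g g' => by
          apply PW.ext
          · funext x
            exact hmul g g' x
          · exact map_mul π g g' }
    apply PP.wreath ihG ihB hiso φ _ hfin
    rw [injective_iff_map_eq_one]
    intro g hg
    apply hinj g
    · exact congrArg PW.right hg
    · intro x
      exact congrArg (fun a : PW G X B => a.left x) hg
  | amalgam ι G H φ hφ Q ψ hψ hiso _ ih =>
    apply PP.amalgam hT hφ ih ψ hψ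
    intro q l hl hq
    obtain ⟨h, hh⟩ := hq
    obtain ⟨h', hh'⟩ := hiso q l hl ⟨h, hh⟩
    exact ⟨h', hh'⟩

theorem pp_base (Γ : Type) [Group Γ] (h : Base Γ) : PP T1 Γ := by
  rcases h with ⟨htf, hce⟩ | ⟨ρ, hρ, h⟩ | ⟨hroots, K, _, N, ρ, hu⟩
  · exact PP.of_free_centralisers T1_int htf hce
  · exact PP.pl ρ hρ h
  · exact PP.linear ρ hu hroots

/-- The expression `∑ i, ∑ j, ∑ g, ∑ x, (h⁻¹) i j g * h j i x • f g x` is the value of the cocycle `f`
on the Dennis trace of `h`. -/
theorem result (Γ : Type) [Group Γ] (hΓ : Built Base Γ) (ε : ℤ) (hε : ε = 1 ∨ ε = -1) {n : ℕ}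
    (h : (Matrix (Fin n) (Fin n) (MonoidAlgebra ℤ Γ))ˣ)
    (hh : ∀ i j g, (h.val i j).coeff g = ε * (h.val j i).coeff g⁻¹) :
    (∀ (L : Type w) [Field L] (d : ℕ) (ρ : Γ →* Matrix (Fin d) (Fin d) L),
      (repMat ρ h.val).det = ((augMat h.val).det : L) ^ d) ∧
    (∀ (d : ℕ) (ρ : Γ →* Matrix (Fin d) (Fin d) ℂ), (∀ g, ρ g⁻¹ = (ρ g)ᴴ) →
      ∀ c : ℂ, c ≠ 0 → star c = (ε : ℂ) * c →
        ∃ (h₁ : (c • repMat ρ h.val).IsHermitian)
          (h₂ : (c • (augMat h.val).map (Int.cast : ℤ → ℂ)).IsHermitian),
          signature h₁ ≡ d * signature h₂ [ZMOD 4]) ∧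
    ∃ k : ℕ, 0 < k ∧ ∀ (M : Type v) [AddCommGroup M] (f : Γ → Γ → M),
      (∀ x y z : Γ, f (x * y) z - f x (y * z) + f (z * x) y = 0) →
      k • (∑ i, ∑ j, ((h⁻¹).val i j).coeff.sum fun g b =>
          (h.val j i).coeff.sum fun x a => (b * a) • f g x) = 0 ∧
      ∀ m : ℕ, 0 < m → ∃ y : M,
        (∑ i, ∑ j, ((h⁻¹).val i j).coeff.sum fun g b =>
          (h.val j i).coeff.sum fun x a => (b * a) • f g x) = m • y := by
  have hn := (pp_of_built T1_int pp_base Γ hΓ).cn
  have hεε : ((ε : ℂ)) * ε = 1 := by rcases hε with rfl | rfl <;> norm_num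
  have key : ∀ (L : Type w) [Field L] (d : ℕ) (ρ : Γ →* Matrix (Fin d) (Fin d) L),
      (repMat ρ h.val).det = ((augMat h.val).det : L) ^ d :=
    fun L _ d ρ => det_form hn ε hε h hh ρ
  have key0 : ∀ (d : ℕ) (ρ : Γ →* Matrix (Fin d) (Fin d) ℂ),
      (repMat ρ h.val).det = ((augMat h.val).det : ℂ) ^ d :=
    fun d ρ => det_form hn ε hε h hh ρ
  refine ⟨key, ?_, trace_form hn ε hε h hh⟩
  intro d ρ hρ c hc0 hc
  have e1 : (c • repMat ρ h.val).IsHermitian := by
    unfold Matrix.IsHermitian
    rw [conjTranspose_smul, repMat_herm ε h.val hh ρ hρ, smul_smul, hc, mul_comm (ε : ℂ) c,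
      mul_assoc, hεε, mul_one]
  have e2 : (c • (augMat h.val).map (Int.cast : ℤ → ℂ)).IsHermitian := by
    unfold Matrix.IsHermitian
    rw [conjTranspose_smul, augMat_herm ε h.val hh hε, smul_smul, hc, mul_comm (ε : ℂ) c,
      mul_assoc, hεε, mul_one]
  have hdet : ((augMat h.val).map (Int.cast : ℤ → ℂ)).det = ((augMat h.val).det : ℂ) :=
    (RingHom.map_det (Int.castRingHom ℂ) (augMat h.val)).symm
  have hunit : ((augMat h.val).det : ℂ) ≠ 0 := by
    intro h0
    have h1 := key0 1 (1 : Γ →* Matrix (Fin 1) (Fin 1) ℂ)
    rw [h0, zero_pow one_ne_zero] at h1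
    have h2 := det_unit (L := ℂ) (d := 1) h (1 : Γ →* Matrix (Fin 1) (Fin 1) ℂ)
    exact h2 h1
  refine ⟨e1, e2, ?_⟩
  apply signature_pow e1 e2 d
  · rw [Fintype.card_prod, Fintype.card_fin, Fintype.card_fin]
  · rw [Matrix.det_smul, Matrix.det_smul, key0 d ρ, hdet, Fintype.card_prod, Fintype.card_fin,
      Fintype.card_fin, mul_pow, pow_mul]
  · rw [Matrix.det_smul, hdet]
    exact mul_ne_zero (pow_ne_zero _ hc0) hunit

end Pool.Agent.Results.MP_8a3537_gt.WreathAmalgamForms
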